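import Pool.Agent.Run7.h957.BorPerm

/-!
# The LMO invariant separates the homology spheres obtained by surgery on the Borromean rings

Let `M(l, m, n)` be the integral homology sphere obtained from the Borromean rings by surgery with the
coefficients `-1 / l`, `-1 / m`, `-1 / n` (`l, m, n` integers). These are the manifolds obtained by
surgery with the coefficients `-1 / n` on the double twist knots (the two-bridge knots of genus one:
trefoils, figure eight, all twist knots, …), and by the symmetries of the Borromean rings `M(l, m, n)`
depends only on the unordered triple; it is the 3-sphere if `l m n = 0`. Habiro's cyclotomic expansion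
(with Masbaum's coefficients `c_k(p)` of the twisting element) gives its Ohtsuki series (the perturbative
`SO(3)` invariant, `q = exp h`, `{i} = q ^ (i / 2) - q ^ (- i / 2)`)

  `τ(h) = ∑_k ({2 k + 1}! {k}! ^ 2 / {1}) c_k(l) c_k(m) c_k(n)`,
  `c_k(p) = ∑_{j ≤ k} (-1) ^ j q ^ (p j (j + 1)) {2 j + 1} / ({k + j + 1}! {k - j}!)`,

the `k`-th term being divisible by `h ^ k`. By a theorem of Ohtsuki the LMO invariant of an integral
homology sphere determines its Ohtsuki series, its part of degree `≤ d` the coefficients up to `h ^ d`.

Theorem: with `e₁, e₂, e₃` the elementary symmetric functions of `l, m, n`,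

  `τ = 1 - 6 e₃ h + (60 e₃² - 6 e₃ e₁) h² + (-4 e₃ e₁² - 8 e₃ e₂ + 160 e₃² e₁ - 840 e₃³) h³ + …`,

and so the parts of degrees 1, 2 and 3 of the LMO invariant separate all these manifolds, which include
infinitely many hyperbolic ones (and with each manifold its mirror image `M(-l, -m, -n)`).
(For the Poincaré sphere with one of its orientations, `l = m = n = 1`, this gives
`1 - 6 h + 42 h ^ 2 - 420 h ^ 3 + …`.)
-/

set_option autoImplicit false

namespace Pool.Agent.Results.MP_27a3bb_gt.BorromeanSurgeries

open PowerSeries Run7.h957.Bor

/-- If the Ohtsuki series of `M(l, m, n)` and `M(a, b, c)` agree in the degrees `1`, `2` and `3`, then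
either both are the 3-sphere or the triples agree up to their order. -/
theorem result (l m n a b c : ℤ)
    (h1 : coeff 1 (ohtsuki l m n) = coeff 1 (ohtsuki a b c))
    (h2 : coeff 2 (ohtsuki l m n) = coeff 2 (ohtsuki a b c))
    (h3 : coeff 3 (ohtsuki l m n) = coeff 3 (ohtsuki a b c)) :
    l * m * n = 0 ∧ a * b * c = 0 ∨ List.Perm [l, m, n] [a, b, c] :=
  sym_of_ohtsuki l m n a b c h1 h2 h3

end Pool.Agent.Results.MP_27a3bb_gt.BorromeanSurgeries
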